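import Pool.Agent.Q229.RAF2
import Pool.Agent.Results.MP_e44225_nt.OneExceptionalSet

/-!
# The error term in Vojta's inequality above ALL good approximations of almost every number, over all number fields

We consider, as in the starting file `OneExceptionalSet`, ALL number fields `k`, all smooth projective curves `C` over `k` and
all finite maps `t : C → ℙ¹` over `k` (unramified outside the fibres over `q ≥ 3` distinct rational numbers `a_1, …, a_q`; by
Belyi's theorem every curve has such a map and every reduced divisor is contained in the fibres), `F` the sum of the reduced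
fibres over the `a_j`. Let `H(x)` be the multiplicative height relative to the number field `K`. Almost every complex (real)
number `z` has infinitely many approximations `x` in a given number field `K ⊆ ℂ` (`K ⊆ ℝ`) with `|x - z| ≤ H(x)^(-τ)` for
`τ < 1` (`τ < 2`), and only finitely many for `τ > 1` (`τ > 2`).

We show: for almost every complex number `z` (every real number), for EVERY number field `K ⊆ ℂ`, all `q`, `a_j`, `κ > 0`, all
`k`, curves and finite sets `S` of primes the inequality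
`m_S(F, P) + (deg K_C / N) h(x) < d(L) - (2 - κ) h(x)`
holds at the points `P` of all degrees above ALL but finitely many of the `x ∈ K` with `|x - z| ≤ H(x)^(-1)` (`H(x)^(-2)`).
For given `K`, `a_j`, `κ` there is `σ < 2` such that, for every metric space `X` and every map `φ : K → X`, for instance the
embedding in a completion of `K`, the points `z ∈ X` for which this (with `H(x)^(-τ)`) fails for some curve and `S` are in a
set of Hausdorff dimension at most `σ / τ`.
-/

set_option autoImplicit false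

namespace Pool.Agent.Results.MP_e44225_nt.GoodApproximations

open Polynomial IsDedekindDomain NumberField MeasureTheory Filter
open Pool.Agent.Results.MP_e44225_nt.OneExceptionalSet (coord height proximity logDisc canonical Values counting)

section count

open Height Finset Pool.Agent.TH876.Loc
open Pool.Agent.Y728.MN (wt nr_fin wt_nr_le meet_iff form_pt_ne wt_mono wt_biUnion_le pt meet_pt)

/-- the trivial bound of the counting function -/
theorem cnt_ht {K : Type} [Field K] [NumberField K] {q : ℕ} (a : Fin q → K) {x : K} (hx : ∀ j, x ≠ a j) :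
    counting a x ≤ ∑ j, (logHeight₁ x + logHeight₁ (a j) + totalWeight K * Real.log 2) := by
  classical
  have hf : ∀ j, Pool.Agent.TH876.KR.form (pt x) (pt (a j)) ≠ 0 := fun j => form_pt_ne (hx j)
  set F : Finset (HeightOneSpectrum (𝓞 K)) := (univ : Finset (Fin q)).biUnion fun j => (nr_fin (hf j)).toFinset with hF
  have hmem : ∀ v : HeightOneSpectrum (𝓞 K),
      (∃ j, v.valuation K (x - a j) < max (v.valuation K (a j)) 1 * max (v.valuation K x) 1) → v ∈ F := by
    rintro v ⟨j, hj⟩
    rw [hF, Finset.mem_biUnion]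
    refine ⟨j, Finset.mem_univ _, ?_⟩
    rw [Set.Finite.mem_toFinset]
    refine (meet_iff v _ _).1 ((meet_pt v _ _).2 ?_)
    rw [mul_comm]
    exact hj
  have h1 : counting a x ≤ wt F := by
    unfold counting
    rw [finsum_eq_sum_of_support_subset (s := F)]
    · refine Finset.sum_le_sum fun v _ => ?_
      split_ifs
      · exact le_rfl
      · exact Real.log_natCast_nonneg _
    · intro v hv
      by_contra hcon
      exact hv (if_neg fun h => hcon (hmem v h))
  refine h1.trans ((wt_biUnion_le _ _).trans ?_)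
  exact Finset.sum_le_sum fun j _ => wt_nr_le (hf j)

end count

/-- At all points `P` of the curve above the element `x` of `K`, over all number fields `L` containing `K` and `k`:
`m_S(F, P) + g h(x) < d(L) - (2 - κ) h(x)`. -/
def Strict (K : Type) [Field K] [NumberField K] (k : Type) {A : Type} [Field k] [CommRing A] [Algebra k A]
    [Algebra k[X] A] {q : ℕ} {u : Fin q → ℕ}
    (y : ∀ j, Fin (u j + 1) → A) (κ : ℝ) (S : Finset ℕ) (x : K) : Prop :=
  ∀ (L : Type) [Field L] [NumberField L] [Algebra K L] [Algebra k L] (φ : A →ₐ[k] L), φ (coord k A) = algebraMap K L x →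
    proximity S y φ + canonical k y * height x < logDisc L - (2 - κ) * height x

theorem core (K : Type) [Field K] [NumberField K] {q : ℕ} (hq : 3 ≤ q) {a : Fin q → ℚ} (ha : Function.Injective a)
    {κ : ℝ} (hκ : 0 < κ) :
    ∃ E : Set K,
      (∃ s C T₀ : ℝ, s < 2 ∧ ∀ T : ℝ, T₀ ≤ T → {x | x ∈ E ∧ Height.mulHeight₁ x ≤ T}.Finite ∧
        ({x | x ∈ E ∧ Height.mulHeight₁ x ≤ T}.ncard : ℝ) ≤ C * T ^ s) ∧
      ∀ (k : Type) [Field k] [NumberField k] (A : Type) [CommRing A] [IsDedekindDomain A]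
        [Algebra k A] [Algebra k[X] A] [IsScalarTower k k[X] A] [Module.Finite k[X] A]
        [FaithfulSMul k[X] A] (u : Fin q → ℕ) (y : ∀ j, Fin (u j + 1) → A),
        (∀ j, y j 0 = coord k A - algebraMap k A (algebraMap ℚ k (a j))) →
        (∀ j i, y j i ∈ (Ideal.span {coord k A - algebraMap k A (algebraMap ℚ k (a j))}).radical) →
        ∀ S : Finset ℕ, (∀ p ∈ S, p.Prime) → ∃ R : Set K, R.Finite ∧ ∀ x : K, x ∉ E → x ∉ R → Strict K k y κ S x := by
  classical
  obtain ⟨hall, hE⟩ := Pool.Agent.Results.MP_e44225_nt.OneExceptionalSet.result K q hq a ha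
  obtain ⟨E, ⟨ν, C, hν, hC, hcount⟩, -, hE⟩ := hE κ hκ
  have hq0 : (0 : ℝ) < q := by
    have : (3 : ℝ) ≤ q := by exact_mod_cast hq
    linarith
  set F : Set K := Set.range fun j => algebraMap ℚ K (a j) with hF
  have hFfin : F.Finite := Set.finite_range _
  -- the height and the counting function
  obtain ⟨D, hD⟩ : ∃ D : ℝ, D = ∑ j, (Height.logHeight₁ (algebraMap ℚ K (a j)) +
      Height.totalWeight K * Real.log 2) := ⟨_, rfl⟩
  have hD0 : 0 ≤ D := by
    rw [hD]
    refine Finset.sum_nonneg fun j _ => add_nonneg (Height.zero_le_logHeight₁ _) ?_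
    exact mul_nonneg (Nat.cast_nonneg _) (Real.log_nonneg (by norm_num))
  have hV : ∀ T : ℝ, 1 ≤ T → ∀ x : K, x ∉ F → Height.mulHeight₁ x ≤ T → x ∈ Values K a (Real.exp D * T ^ (q : ℝ)) := by
    intro T hT x hxF hxT
    have hT0 : 0 < T := by linarith
    have hxa : ∀ j, x ≠ algebraMap ℚ K (a j) := fun j h => hxF ⟨j, h.symm⟩
    refine ⟨hxa, (cnt_ht _ hxa).trans ?_⟩
    have h1 : Height.logHeight₁ x ≤ Real.log T := by
      rw [Height.logHeight₁_eq_log_mulHeight₁]
      exact Real.log_le_log (lt_of_lt_of_le one_pos (Height.one_le_mulHeight₁ x)) hxT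
    rw [Real.log_mul (Real.exp_pos _).ne' (Real.rpow_pos_of_pos hT0 _).ne', Real.log_exp, Real.log_rpow hT0, hD]
    have h2 : ∑ j : Fin q, (Height.logHeight₁ x + Height.logHeight₁ (algebraMap ℚ K (a j)) +
        Height.totalWeight K * Real.log 2) = q * Height.logHeight₁ x +
        ∑ j, (Height.logHeight₁ (algebraMap ℚ K (a j)) + Height.totalWeight K * Real.log 2) := by
      simp only [add_assoc]
      rw [Finset.sum_add_distrib, Finset.sum_const, Finset.card_univ, Fintype.card_fin, nsmul_eq_mul]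
    rw [h2]
    have h3 : (q : ℝ) * Height.logHeight₁ x ≤ q * Real.log T := mul_le_mul_of_nonneg_left h1 hq0.le
    linarith
  refine ⟨E ∪ F, ⟨max (2 - ν * q) 0, C * (Real.exp D) ^ (2 / (q : ℝ) - ν) + F.ncard, 1, ?_, fun T hT => ?_⟩, ?_⟩
  · refine max_lt ?_ two_pos
    have := mul_pos hν hq0
    linarith
  · have hT0 : 0 < T := by linarith
    have hX1 : 1 ≤ Real.exp D * T ^ (q : ℝ) := by
      have h1 := Real.one_le_exp hD0
      have h2 := Real.one_le_rpow hT hq0.le
      nlinarith
    obtain ⟨⟨C', h4⟩, -⟩ := hall 1 one_pos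
    have hfinV : (E ∩ Values K a (Real.exp D * T ^ (q : ℝ))).Finite :=
      ((h4 _ hX1).1).subset Set.inter_subset_right
    have hsub : {x | x ∈ E ∪ F ∧ Height.mulHeight₁ x ≤ T} ⊆ (E ∩ Values K a (Real.exp D * T ^ (q : ℝ))) ∪ F := by
      rintro x ⟨h5, h6⟩
      by_cases h7 : x ∈ F
      · exact Or.inr h7
      · rcases h5 with h5 | h5
        · exact Or.inl ⟨h5, hV T hT x h7 h6⟩
        · exact absurd h5 h7
    have hfin2 := hfinV.union hFfin
    refine ⟨hfin2.subset hsub, ?_⟩
    have h5 : (({x | x ∈ E ∪ F ∧ Height.mulHeight₁ x ≤ T}.ncard : ℕ) : ℝ) ≤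
        ((E ∩ Values K a (Real.exp D * T ^ (q : ℝ))).ncard : ℝ) + F.ncard := by
      exact_mod_cast (Set.ncard_le_ncard hsub hfin2).trans (Set.ncard_union_le _ _)
    have h6 := hcount _ hX1
    have h7 : (Real.exp D * T ^ (q : ℝ)) ^ (2 / (q : ℝ) - ν) =
        (Real.exp D) ^ (2 / (q : ℝ) - ν) * T ^ (2 - ν * q) := by
      rw [Real.mul_rpow (Real.exp_pos _).le (Real.rpow_nonneg hT0.le _), ← Real.rpow_mul hT0.le]
      congr 2
      field_simp
    rw [h7] at h6
    have h8 : T ^ (2 - ν * q) ≤ T ^ (max (2 - ν * q) 0) := Real.rpow_le_rpow_of_exponent_le hT (le_max_left _ _)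
    have h9 : (1 : ℝ) ≤ T ^ (max (2 - ν * q) 0) := Real.one_le_rpow hT (le_max_right _ _)
    have h10 : 0 ≤ C * (Real.exp D) ^ (2 / (q : ℝ) - ν) := mul_nonneg hC.le (Real.rpow_nonneg (Real.exp_pos _).le _)
    have h11 : (0 : ℝ) ≤ (F.ncard : ℝ) := Nat.cast_nonneg _
    have h12 := mul_le_mul_of_nonneg_left h8 h10
    nlinarith
  · intro k _ _ A _ _ _ _ _ _ _ u y hy0 hyr S hSp
    obtain ⟨-, hS⟩ := hE k A u y hy0 hyr
    obtain ⟨R, hR, hR2⟩ := hS S hSp
    refine ⟨R, hR, fun x hx hxR L _ _ _ _ φ hφ => ?_⟩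
    exact hR2 x (fun h => hx (Or.inl h)) hxR (fun j h => hx (Or.inr ⟨j, h.symm⟩)) L φ hφ

/-- (1) For every number field `K`, `q ≥ 3` different rational numbers `a_j` and `κ > 0` there is `σ < 2` such that for every
metric space `X`, every map `φ : K → X` and every `τ > 0` there is a set `Z ⊆ X` of Hausdorff dimension at most `σ / τ` such
that for all `z ∉ Z`, all curves and all finite sets `S` of primes: `Strict` holds for all but finitely many of the `x ∈ K`
with `dist(φ(x), z) ≤ H(x)^(-τ)`.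
(2) For almost every complex number `z`, for every number field `K ⊆ ℂ`, all `q ≥ 3`, `a_j`, `κ > 0`, all curves and `S`:
`Strict` holds for all but finitely many of the `x ∈ K` with `|x - z| ≤ H(x)^(-1)`.
(3) For almost every real number `t` the same with `|x - t| ≤ H(x)^(-2)`. -/
theorem result :
    (∀ (K : Type) [Field K] [NumberField K] (q : ℕ) (a : Fin q → ℚ) (κ : ℝ), 3 ≤ q → Function.Injective a → 0 < κ →
      ∃ σ : ℝ, σ < 2 ∧ ∀ (M : Type) [MetricSpace M] (φ : K → M) (τ : ℝ), 0 < τ →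
        ∃ Z : Set M, dimH Z ≤ ENNReal.ofReal (σ / τ) ∧ ∀ z : M, z ∉ Z →
          ∀ (k : Type) [Field k] [NumberField k] (A : Type) [CommRing A] [IsDedekindDomain A]
            [Algebra k A] [Algebra k[X] A] [IsScalarTower k k[X] A] [Module.Finite k[X] A]
            [FaithfulSMul k[X] A] (u : Fin q → ℕ) (y : ∀ j, Fin (u j + 1) → A),
            (∀ j, y j 0 = coord k A - algebraMap k A (algebraMap ℚ k (a j))) →
            (∀ j i, y j i ∈ (Ideal.span {coord k A - algebraMap k A (algebraMap ℚ k (a j))}).radical) →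
            ∀ S : Finset ℕ, (∀ p ∈ S, p.Prime) →
              {x : K | dist (φ x) z ≤ Height.mulHeight₁ x ^ (-τ) ∧ ¬ Strict K k y κ S x}.Finite) ∧
    (∀ᵐ z : ℂ, ∀ (K : IntermediateField ℚ ℂ) [NumberField K] (q : ℕ) (a : Fin q → ℚ) (κ : ℝ), 3 ≤ q →
      Function.Injective a → 0 < κ →
        ∀ (k : Type) [Field k] [NumberField k] (A : Type) [CommRing A] [IsDedekindDomain A]
          [Algebra k A] [Algebra k[X] A] [IsScalarTower k k[X] A] [Module.Finite k[X] A]
          [FaithfulSMul k[X] A] (u : Fin q → ℕ) (y : ∀ j, Fin (u j + 1) → A),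
          (∀ j, y j 0 = coord k A - algebraMap k A (algebraMap ℚ k (a j))) →
          (∀ j i, y j i ∈ (Ideal.span {coord k A - algebraMap k A (algebraMap ℚ k (a j))}).radical) →
          ∀ S : Finset ℕ, (∀ p ∈ S, p.Prime) →
            {x : K | ‖(x : ℂ) - z‖ ≤ Height.mulHeight₁ x ^ (-(1 : ℝ)) ∧ ¬ Strict K k y κ S x}.Finite) ∧
    (∀ᵐ t : ℝ, ∀ (K : IntermediateField ℚ ℂ) [NumberField K] (q : ℕ) (a : Fin q → ℚ) (κ : ℝ), 3 ≤ q →
      Function.Injective a → 0 < κ →
        ∀ (k : Type) [Field k] [NumberField k] (A : Type) [CommRing A] [IsDedekindDomain A]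
          [Algebra k A] [Algebra k[X] A] [IsScalarTower k k[X] A] [Module.Finite k[X] A]
          [FaithfulSMul k[X] A] (u : Fin q → ℕ) (y : ∀ j, Fin (u j + 1) → A),
          (∀ j, y j 0 = coord k A - algebraMap k A (algebraMap ℚ k (a j))) →
          (∀ j i, y j i ∈ (Ideal.span {coord k A - algebraMap k A (algebraMap ℚ k (a j))}).radical) →
          ∀ S : Finset ℕ, (∀ p ∈ S, p.Prime) →
            {x : K | ‖(x : ℂ) - t‖ ≤ Height.mulHeight₁ x ^ (-(2 : ℝ)) ∧ ¬ Strict K k y κ S x}.Finite) := by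
  classical
  have hmono : ∀ (K : Type) [Field K] [NumberField K] (k : Type) [Field k] (A : Type) [CommRing A] [Algebra k A]
      [Algebra k[X] A] (q : ℕ) (u : Fin q → ℕ) (y : ∀ j, Fin (u j + 1) → A) (κ κ' : ℝ) (S : Finset ℕ) (x : K), κ' ≤ κ →
      Strict K k y κ' S x → Strict K k y κ S x := by
    intro K _ _ k _ A _ _ _ q u y κ κ' S x hκ h L _ _ _ _ φ hφ
    refine lt_of_lt_of_le (h L φ hφ) ?_
    have h1 : 0 ≤ height x := div_nonneg (Height.zero_le_logHeight₁ _) (Nat.cast_nonneg _)
    have h2 := mul_le_mul_of_nonneg_right hκ h1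
    linarith
  -- the exceptional sets, for `q`, `a` and the field
  have hEx : ∀ (q : ℕ) (a : Fin q → ℚ), 3 ≤ q → Function.Injective a →
      ∀ (K : Type) [Field K] [NumberField K] (n : ℕ), ∃ E : Set K,
        (∃ s C T₀ : ℝ, s < 2 * (1 : ℝ) ∧ ∀ T : ℝ, T₀ ≤ T → {x | x ∈ E ∧ Height.mulHeight₁ x ≤ T}.Finite ∧
          ({x | x ∈ E ∧ Height.mulHeight₁ x ≤ T}.ncard : ℝ) ≤ C * T ^ s) ∧
        ∀ (k : Type) [Field k] [NumberField k] (A : Type) [CommRing A] [IsDedekindDomain A]
          [Algebra k A] [Algebra k[X] A] [IsScalarTower k k[X] A] [Module.Finite k[X] A]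
          [FaithfulSMul k[X] A] (u : Fin q → ℕ) (y : ∀ j, Fin (u j + 1) → A),
          (∀ j, y j 0 = coord k A - algebraMap k A (algebraMap ℚ k (a j))) →
          (∀ j i, y j i ∈ (Ideal.span {coord k A - algebraMap k A (algebraMap ℚ k (a j))}).radical) →
          ∀ S : Finset ℕ, (∀ p ∈ S, p.Prime) → ∃ R : Set K, R.Finite ∧ ∀ x : K, x ∉ E → x ∉ R →
            Strict K k y (1 / ((n : ℝ) + 1)) S x := by
    intro q a hq ha K _ _ n
    obtain ⟨E, ⟨s, C, T₀, h1, h2⟩, h3⟩ := core K hq ha (κ := 1 / ((n : ℝ) + 1)) (by positivity)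
    exact ⟨E, ⟨s, C, T₀, by linarith, h2⟩, h3⟩
  refine ⟨?_, ?_, ?_⟩
  · intro K _ _ q a κ hq ha hκ
    obtain ⟨E, ⟨s, C, T₀, h1, h2⟩, h3⟩ := core K hq ha hκ
    refine ⟨s, h1, fun M _ φ τ hτ => ⟨_, Pool.Agent.Q229.RAH.dim φ E Height.mulHeight₁
      (Pool.Agent.Q229.RAF2.up h2) τ hτ, ?_⟩⟩
    intro z hz k _ _ A _ _ _ _ _ _ _ u y hy0 hyr S hSp
    obtain ⟨R, hR, hR2⟩ := h3 k A u y hy0 hyr S hSp
    refine ((Set.not_infinite.1 hz).union hR).subset ?_
    rintro x ⟨h4, h5⟩
    by_cases hxR : x ∈ R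
    · exact Or.inr hxR
    · refine Or.inl ⟨?_, h4⟩
      by_contra hxE
      exact h5 (hR2 x hxE hxR)
  · have hkey : ∀ (q : ℕ) (a : Fin q → ℚ), ∀ᵐ z : ℂ, 3 ≤ q → Function.Injective a →
        ∀ (K : IntermediateField ℚ ℂ) [NumberField K] (κ : ℝ), 0 < κ →
        ∀ (k : Type) [Field k] [NumberField k] (A : Type) [CommRing A] [IsDedekindDomain A]
          [Algebra k A] [Algebra k[X] A] [IsScalarTower k k[X] A] [Module.Finite k[X] A]
          [FaithfulSMul k[X] A] (u : Fin q → ℕ) (y : ∀ j, Fin (u j + 1) → A),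
          (∀ j, y j 0 = coord k A - algebraMap k A (algebraMap ℚ k (a j))) →
          (∀ j i, y j i ∈ (Ideal.span {coord k A - algebraMap k A (algebraMap ℚ k (a j))}).radical) →
          ∀ S : Finset ℕ, (∀ p ∈ S, p.Prime) →
            {x : K | ‖(x : ℂ) - z‖ ≤ Height.mulHeight₁ x ^ (-(1 : ℝ)) ∧ ¬ Strict K k y κ S x}.Finite := by
      intro q a
      by_cases hqa : 3 ≤ q ∧ Function.Injective a
      · have h1 := Pool.Agent.Q229.RAF2.complex (fun K _ _ n => (hEx q a hqa.1 hqa.2 K n).choose)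
          (fun K _ _ x => Height.mulHeight₁ x) (fun K _ _ => 1)
          (fun K _ _ n => (hEx q a hqa.1 hqa.2 K n).choose_spec.1) (fun K _ _ => one_pos)
        filter_upwards [h1] with z hz _ _ K hK κ hκ
        intro k _ _ A _ _ _ _ _ _ _ u y hy0 hyr S hSp
        obtain ⟨n, hn⟩ := exists_nat_one_div_lt hκ
        obtain ⟨R, hR, hR2⟩ := (hEx q a hqa.1 hqa.2 K n).choose_spec.2 k A u y hy0 hyr S hSp
        refine ((hz K n).union hR).subset ?_
        rintro x ⟨h4, h5⟩
        by_cases hxR : x ∈ R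
        · exact Or.inr hxR
        · refine Or.inl ⟨?_, h4⟩
          by_contra hxE
          exact h5 (hmono _ _ _ _ _ _ _ _ _ _ hn.le (hR2 x hxE hxR))
      · exact Filter.Eventually.of_forall fun z h1 h2 => absurd ⟨h1, h2⟩ hqa
    have hall : ∀ᵐ z : ℂ, ∀ (q : ℕ) (a : Fin q → ℚ), 3 ≤ q → Function.Injective a →
        ∀ (K : IntermediateField ℚ ℂ) [NumberField K] (κ : ℝ), 0 < κ →
        ∀ (k : Type) [Field k] [NumberField k] (A : Type) [CommRing A] [IsDedekindDomain A]
          [Algebra k A] [Algebra k[X] A] [IsScalarTower k k[X] A] [Module.Finite k[X] A]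
          [FaithfulSMul k[X] A] (u : Fin q → ℕ) (y : ∀ j, Fin (u j + 1) → A),
          (∀ j, y j 0 = coord k A - algebraMap k A (algebraMap ℚ k (a j))) →
          (∀ j i, y j i ∈ (Ideal.span {coord k A - algebraMap k A (algebraMap ℚ k (a j))}).radical) →
          ∀ S : Finset ℕ, (∀ p ∈ S, p.Prime) →
            {x : K | ‖(x : ℂ) - z‖ ≤ Height.mulHeight₁ x ^ (-(1 : ℝ)) ∧ ¬ Strict K k y κ S x}.Finite := by
      rw [ae_all_iff]
      intro q
      rw [ae_all_iff]
      exact hkey q
    filter_upwards [hall] with z hz K hK q a κ hq ha hκ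
    exact hz q a hq ha K κ hκ
  · have hkey : ∀ (q : ℕ) (a : Fin q → ℚ), ∀ᵐ t : ℝ, 3 ≤ q → Function.Injective a →
        ∀ (K : IntermediateField ℚ ℂ) [NumberField K] (κ : ℝ), 0 < κ →
        ∀ (k : Type) [Field k] [NumberField k] (A : Type) [CommRing A] [IsDedekindDomain A]
          [Algebra k A] [Algebra k[X] A] [IsScalarTower k k[X] A] [Module.Finite k[X] A]
          [FaithfulSMul k[X] A] (u : Fin q → ℕ) (y : ∀ j, Fin (u j + 1) → A),
          (∀ j, y j 0 = coord k A - algebraMap k A (algebraMap ℚ k (a j))) →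
          (∀ j i, y j i ∈ (Ideal.span {coord k A - algebraMap k A (algebraMap ℚ k (a j))}).radical) →
          ∀ S : Finset ℕ, (∀ p ∈ S, p.Prime) →
            {x : K | ‖(x : ℂ) - t‖ ≤ Height.mulHeight₁ x ^ (-(2 : ℝ)) ∧ ¬ Strict K k y κ S x}.Finite := by
      intro q a
      by_cases hqa : 3 ≤ q ∧ Function.Injective a
      · have h1 := Pool.Agent.Q229.RAF2.real (fun K _ _ n => (hEx q a hqa.1 hqa.2 K n).choose)
          (fun K _ _ x => Height.mulHeight₁ x) (fun K _ _ => 1)
          (fun K _ _ n => (hEx q a hqa.1 hqa.2 K n).choose_spec.1) (fun K _ _ => one_pos)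
        filter_upwards [h1] with z hz _ _ K hK κ hκ
        intro k _ _ A _ _ _ _ _ _ _ u y hy0 hyr S hSp
        obtain ⟨n, hn⟩ := exists_nat_one_div_lt hκ
        obtain ⟨R, hR, hR2⟩ := (hEx q a hqa.1 hqa.2 K n).choose_spec.2 k A u y hy0 hyr S hSp
        refine ((hz K n).union hR).subset ?_
        rintro x ⟨h4, h5⟩
        by_cases hxR : x ∈ R
        · exact Or.inr hxR
        · refine Or.inl ⟨?_, ?_⟩
          · by_contra hxE
            exact h5 (hmono _ _ _ _ _ _ _ _ _ _ hn.le (hR2 x hxE hxR))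
          · rw [mul_one]
            exact h4
      · exact Filter.Eventually.of_forall fun z h1 h2 => absurd ⟨h1, h2⟩ hqa
    have hall : ∀ᵐ t : ℝ, ∀ (q : ℕ) (a : Fin q → ℚ), 3 ≤ q → Function.Injective a →
        ∀ (K : IntermediateField ℚ ℂ) [NumberField K] (κ : ℝ), 0 < κ →
        ∀ (k : Type) [Field k] [NumberField k] (A : Type) [CommRing A] [IsDedekindDomain A]
          [Algebra k A] [Algebra k[X] A] [IsScalarTower k k[X] A] [Module.Finite k[X] A]
          [FaithfulSMul k[X] A] (u : Fin q → ℕ) (y : ∀ j, Fin (u j + 1) → A),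
          (∀ j, y j 0 = coord k A - algebraMap k A (algebraMap ℚ k (a j))) →
          (∀ j i, y j i ∈ (Ideal.span {coord k A - algebraMap k A (algebraMap ℚ k (a j))}).radical) →
          ∀ S : Finset ℕ, (∀ p ∈ S, p.Prime) →
            {x : K | ‖(x : ℂ) - t‖ ≤ Height.mulHeight₁ x ^ (-(2 : ℝ)) ∧ ¬ Strict K k y κ S x}.Finite := by
      rw [ae_all_iff]
      intro q
      rw [ae_all_iff]
      exact hkey q
    filter_upwards [hall] with z hz K hK q a κ hq ha hκ
    exact hz q a hq ha K κ hκ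

end Pool.Agent.Results.MP_e44225_nt.GoodApproximations
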