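import Pool.Agent.Results.MP_e44225_nt.OneExceptionalSet
import Pool.Agent.Q229.RAK

/-!
# The error term in Vojta's inequality above ALL rational numbers near almost every real number

We consider, as in the starting file `OneExceptionalSet`, ALL number fields `k`, all smooth projective curves `C` over `k` and
all finite maps `t : C → ℙ¹` over `k` (unramified outside the fibres over `q ≥ 3` distinct rational numbers `a_1, …, a_q`; by
Belyi's theorem every curve has such a map and every reduced divisor is contained in the fibres), `F` the sum of the reduced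
fibres over the `a_j`. The starting file has a set `E` of exceptions, thin in the order by counting functions, outside of which
Vojta's inequality holds at all points `P` above `x`, for all curves, with the error term `- (2 - κ) h(x)`. Here we find that
there are no exceptions at all near almost every real number `t`: for almost every `t`, all `q`, `a_j`, `κ > 0`, curves and
finite sets `S` the inequality
`m_S(F, P) + (deg K_C / N) h(x) < d(L) - (2 - κ) h(x)`
holds at the points `P` of all degrees above ALL but finitely many of the rational numbers `x` with `|t - x| ≤ den(x)^(-τ)`, for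
some `τ < 2` (which does not depend on `t`, on `S` and the curve), in particular above all but finitely many of the convergents
of `t`. For other exponents `τ` there are such statements outside a set of Hausdorff dimension at most `σ / τ`, `σ < 2`.
-/

set_option autoImplicit false

namespace Pool.Agent.Results.MP_e44225_nt.RationalsNearRealPoints

open Polynomial IsDedekindDomain NumberField MeasureTheory Filter
open Pool.Agent.Results.MP_e44225_nt.OneExceptionalSet (coord height proximity logDisc canonical Values counting)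

/-- At all points `P` of the curve above the rational number `x`, over all number fields `L`:
`m_S(F, P) + g h(x) ≤ d(L) - (2 - κ) h(x) + ∑_{p ∈ S} log p + c`. -/
def Weak (k : Type) {A : Type} [Field k] [CommRing A] [Algebra k A] [Algebra k[X] A] {q : ℕ} {u : Fin q → ℕ}
    (y : ∀ j, Fin (u j + 1) → A) (κ c : ℝ) (S : Finset ℕ) (x : ℚ) : Prop :=
  ∀ (L : Type) [Field L] [NumberField L] [Algebra k L] (φ : A →ₐ[k] L), φ (coord k A) = (x : L) →
    proximity S y φ + canonical k y * height x ≤ logDisc L - (2 - κ) * height x + ∑ p ∈ S, Real.log p + c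

/-- At all points `P` of the curve above the rational number `x`, over all number fields `L`:
`m_S(F, P) + g h(x) < d(L) - (2 - κ) h(x)`. -/
def Strict (k : Type) {A : Type} [Field k] [CommRing A] [Algebra k A] [Algebra k[X] A] {q : ℕ} {u : Fin q → ℕ}
    (y : ∀ j, Fin (u j + 1) → A) (κ : ℝ) (S : Finset ℕ) (x : ℚ) : Prop :=
  ∀ (L : Type) [Field L] [NumberField L] [Algebra k L] (φ : A →ₐ[k] L), φ (coord k A) = (x : L) →
    proximity S y φ + canonical k y * height x < logDisc L - (2 - κ) * height x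

theorem core {q : ℕ} (hq : 3 ≤ q) {a : Fin q → ℚ} (ha : Function.Injective a) {κ : ℝ} (hκ : 0 < κ) :
    ∃ (E : Set ℚ) (σ : ℝ), 0 ≤ σ ∧ σ < 2 ∧
      (∀ M : ℕ, ∃ C : ℝ, ∀ T : ℝ, 1 ≤ T → (Pool.Agent.Q229.RAQ.Pts E M T).Finite ∧
        ((Pool.Agent.Q229.RAQ.Pts E M T).ncard : ℝ) ≤ C * T ^ σ) ∧
      ∀ (k : Type) [Field k] [NumberField k] (A : Type) [CommRing A] [IsDedekindDomain A]
        [Algebra k A] [Algebra k[X] A] [IsScalarTower k k[X] A] [Module.Finite k[X] A]
        [FaithfulSMul k[X] A] (u : Fin q → ℕ) (y : ∀ j, Fin (u j + 1) → A),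
        (∀ j, y j 0 = coord k A - algebraMap k A (algebraMap ℚ k (a j))) →
        (∀ j i, y j i ∈ (Ideal.span {coord k A - algebraMap k A (algebraMap ℚ k (a j))}).radical) →
        (∃ c : ℝ, ∀ x : ℚ, x ∉ E → ∀ S : Finset ℕ, (∀ p ∈ S, p.Prime) → Weak k y κ c S x) ∧
        ∀ S : Finset ℕ, (∀ p ∈ S, p.Prime) → ∃ R : Set ℚ, R.Finite ∧ ∀ x : ℚ, x ∉ E → x ∉ R → Strict k y κ S x := by
  classical
  obtain ⟨hall, hE⟩ := Pool.Agent.Results.MP_e44225_nt.OneExceptionalSet.result ℚ q hq a ha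
  obtain ⟨E, ⟨ν, C, hν, hC, hcount⟩, -, hE⟩ := hE κ hκ
  have hcast : ∀ j, algebraMap ℚ ℚ (a j) = a j := fun j => rfl
  -- the exceptions and the finitely many points which we leave out
  set F : Set ℚ := {0} ∪ Set.range a with hF
  have hFfin : F.Finite := (Set.finite_singleton _).union (Set.finite_range _)
  have hfin : ∀ X : ℝ, 1 ≤ X → (Values ℚ a X).Finite := by
    intro X hX
    obtain ⟨⟨C', h⟩, -⟩ := hall 1 one_pos
    exact (h X hX).1
  have hV : ∀ M : ℕ, ∃ C : ℝ, 1 ≤ C ∧ ∀ T : ℝ, 1 ≤ T → ∀ x : ℚ, x ∉ F → |(x : ℝ)| ≤ M → (x.den : ℝ) ≤ T →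
      x ∈ Values ℚ a (C * T ^ (q : ℝ)) := by
    intro M
    obtain ⟨D, hD1, hD⟩ := Pool.Agent.Q229.RAK.kr_real (fun j => Pool.Agent.Y728.AK.pK (algebraMap ℚ ℚ (a j)))
      (fun j h => by
        have := congrFun h 1
        simp [Pool.Agent.Y728.AK.pK] at this) M
    refine ⟨D, hD1, fun T hT x hxF hxM hxT => ?_⟩
    have hx0 : x ≠ 0 := fun h => hxF (Or.inl h)
    have hxa : ∀ j, x ≠ algebraMap ℚ ℚ (a j) := fun j h => hxF (Or.inr ⟨j, h.symm⟩)
    refine ⟨hxa, ?_⟩
    refine (le_of_eq (Pool.Agent.Results.MP_e44225_nt.OneExceptionalSet.counting_eq _ hxa)).trans ?_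
    exact hD T hT _ x hx0 hxM hxT fun j => Pool.Agent.Results.MP_e44225_nt.OneExceptionalSet.form_iff.2 (hxa j)
  refine ⟨E ∪ F, max ((2 / (q : ℝ) - ν) * q) 0, le_max_right _ _, ?_, ?_, ?_⟩
  · have hq0 : (0 : ℝ) < q := by
      have : (3 : ℝ) ≤ q := by exact_mod_cast hq
      linarith
    refine max_lt ?_ two_pos
    have e : (2 / (q : ℝ) - ν) * q = 2 - ν * q := by field_simp
    rw [e]
    nlinarith
  · intro M
    obtain ⟨C1, h1⟩ := Pool.Agent.Q229.RAQ.pts_of hFfin (Values ℚ a) (Nat.cast_nonneg q) hfin ⟨C, hcount⟩ hV M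
    refine ⟨F.ncard + max C1 0, fun T hT => ?_⟩
    obtain ⟨h2, h3⟩ := h1 T hT
    have hsub : Pool.Agent.Q229.RAQ.Pts (E ∪ F) M T ⊆ F ∪ Pool.Agent.Q229.RAQ.Pts E M T := by
      rintro x ⟨hx | hx, h4⟩
      · exact Or.inr ⟨hx, h4⟩
      · exact Or.inl hx
    refine ⟨(hFfin.union h2).subset hsub, ?_⟩
    have h5 : ((Pool.Agent.Q229.RAQ.Pts (E ∪ F) M T).ncard : ℝ) ≤
        F.ncard + (Pool.Agent.Q229.RAQ.Pts E M T).ncard := by
      exact_mod_cast (Set.ncard_le_ncard hsub (hFfin.union h2)).trans (Set.ncard_union_le _ _)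
    have hm1 : 1 ≤ T ^ (max ((2 / (q : ℝ) - ν) * q) 0) := Real.one_le_rpow hT (le_max_right _ _)
    have h6 : (F.ncard : ℝ) ≤ F.ncard * T ^ (max ((2 / (q : ℝ) - ν) * q) 0) :=
      le_mul_of_one_le_right (Nat.cast_nonneg _) hm1
    have h7 : C1 * T ^ (max ((2 / (q : ℝ) - ν) * q) 0) ≤ max C1 0 * T ^ (max ((2 / (q : ℝ) - ν) * q) 0) :=
      mul_le_mul_of_nonneg_right (le_max_left _ _) (by linarith)
    linarith
  · intro k _ _ A _ _ _ _ _ _ _ u y hy0 hyr
    obtain ⟨⟨c, hc⟩, hS⟩ := hE k A u y hy0 hyr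
    have hxa : ∀ x : ℚ, x ∉ E ∪ F → ∀ j, x ≠ algebraMap ℚ ℚ (a j) :=
      fun x hx j h => hx (Or.inr (Or.inr ⟨j, h.symm⟩))
    refine ⟨⟨c, fun x hx S hSp L _ _ _ φ hφ => ?_⟩, fun S hSp => ?_⟩
    · exact hc x (fun h => hx (Or.inl h)) (hxa x hx) L φ (by rw [hφ, eq_ratCast]) S hSp
    · obtain ⟨R, hR, hR2⟩ := hS S hSp
      refine ⟨R, hR, fun x hx hxR L _ _ _ φ hφ => ?_⟩
      exact hR2 x (fun h => hx (Or.inl h)) hxR (hxa x hx) L φ (by rw [hφ, eq_ratCast])

/-- finitely many rational numbers are not near an irrational number -/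
theorem avoid {R : Set ℚ} (hR : R.Finite) {t τ : ℝ} (ht : Irrational t) (hτ : 0 < τ) :
    ∀ᶠ T : ℝ in atTop, ∀ x : ℚ, |t - x| ≤ T ^ (-τ) → x ∉ R := by
  have h1 : ∀ x ∈ R, ∀ᶠ T : ℝ in atTop, ¬ |t - x| ≤ T ^ (-τ) := by
    intro x _
    have h2 : 0 < |t - x| := abs_pos.2 (sub_ne_zero.2 fun h => ht ⟨x, h.symm⟩)
    have h3 := (tendsto_rpow_neg_atTop hτ).eventually (gt_mem_nhds h2)
    filter_upwards [h3] with T hT
    exact not_le.2 hT
  have h4 := (hR.eventually_all (l := atTop) (p := fun x (T : ℝ) => ¬ |t - x| ≤ T ^ (-τ))).2 h1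
  filter_upwards [h4] with T hT x hx hxR
  exact hT x hxR hx

theorem height_nonneg (x : ℚ) : 0 ≤ height x :=
  Pool.Agent.Results.MP_e44225_nt.OneExceptionalSet.height_nonneg x

/-- **No exceptions to Vojta's inequality with a negative linear error term near almost every real number.**
The data of a curve over a number field `k` with a map to the line of degree `N` are, as in the starting file
`OneExceptionalSet`: a Dedekind domain `A`, finite over `k[t]` and containing it, and for all `j ≤ q` elements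
`y_{j 0} = t - a_j, y_{j 1}, …` of the radical of the ideal `(t - a_j)` of `A`. Write `g` for
`q - 2 - (∑_j dim (A / (y_{j 0}, y_{j 1}, …))) / N`.

(1) Let `q ≥ 3`, `a_1, …, a_q` distinct rational numbers and `κ > 0`. There is `σ < 2` such that for all `τ > 0` there is a set
`Z` of real numbers of Hausdorff dimension at most `σ / τ`, of measure zero if `σ < τ`, such that for all these data: there is a
constant `c` such that for all real `t ∉ Z`, all `T ≥ T₀(t)` and ALL rational `x` of denominator `≤ T` with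
`|t - x| ≤ T ^ (-τ)` all points `P` above `x` over all number fields `L` and all finite sets `S` of primes satisfy
`m_S(F, P) + g h(x) ≤ d(L) - (2 - κ) h(x) + ∑_{p ∈ S} log p + c`; and for all `t ∉ Z` and `S` they satisfy
`m_S(F, P) + g h(x) < d(L) - (2 - κ) h(x)` if `T` is large.

(2) For almost every real `t`, all `q ≥ 3`, distinct rational `a_1, …, a_q` and `κ > 0` there is `τ < 2` such that for all these
data and all `S` all but finitely many of the rational numbers `x` with `|t - x| ≤ den(x) ^ (-τ)` satisfy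
`m_S(F, P) + g h(x) < d(L) - (2 - κ) h(x)` for all points `P` above `x` over all number fields `L`. -/
theorem result :
    (∀ (q : ℕ) (a : Fin q → ℚ), 3 ≤ q → Function.Injective a → ∀ κ : ℝ, 0 < κ → ∃ σ : ℝ, 0 ≤ σ ∧ σ < 2 ∧
      ∀ τ : ℝ, 0 < τ → ∃ (Z : Set ℝ) (T₀ : ℝ → ℝ), dimH Z ≤ ENNReal.ofReal (σ / τ) ∧ (σ < τ → volume Z = 0) ∧
      ∀ (k : Type) [Field k] [NumberField k] (A : Type) [CommRing A] [IsDedekindDomain A]
        [Algebra k A] [Algebra k[X] A] [IsScalarTower k k[X] A] [Module.Finite k[X] A]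
        [FaithfulSMul k[X] A] (u : Fin q → ℕ) (y : ∀ j, Fin (u j + 1) → A),
        (∀ j, y j 0 = coord k A - algebraMap k A (algebraMap ℚ k (a j))) →
        (∀ j i, y j i ∈ (Ideal.span {coord k A - algebraMap k A (algebraMap ℚ k (a j))}).radical) →
        (∃ c : ℝ, ∀ t : ℝ, t ∉ Z → ∀ T : ℝ, T₀ t ≤ T → ∀ x : ℚ, (x.den : ℝ) ≤ T → |t - x| ≤ T ^ (-τ) →
          ∀ S : Finset ℕ, (∀ p ∈ S, p.Prime) → Weak k y κ c S x) ∧
        ∀ t : ℝ, t ∉ Z → ∀ S : Finset ℕ, (∀ p ∈ S, p.Prime) → ∀ᶠ T : ℝ in atTop, ∀ x : ℚ, (x.den : ℝ) ≤ T →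
          |t - x| ≤ T ^ (-τ) → Strict k y κ S x) ∧
    ∀ᵐ t : ℝ, ∀ (q : ℕ) (a : Fin q → ℚ), 3 ≤ q → Function.Injective a → ∀ κ : ℝ, 0 < κ → ∃ τ : ℝ, τ < 2 ∧
      ∀ (k : Type) [Field k] [NumberField k] (A : Type) [CommRing A] [IsDedekindDomain A]
        [Algebra k A] [Algebra k[X] A] [IsScalarTower k k[X] A] [Module.Finite k[X] A]
        [FaithfulSMul k[X] A] (u : Fin q → ℕ) (y : ∀ j, Fin (u j + 1) → A),
        (∀ j, y j 0 = coord k A - algebraMap k A (algebraMap ℚ k (a j))) →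
        (∀ j i, y j i ∈ (Ideal.span {coord k A - algebraMap k A (algebraMap ℚ k (a j))}).radical) →
        ∀ S : Finset ℕ, (∀ p ∈ S, p.Prime) →
          {x : ℚ | |t - x| ≤ (x.den : ℝ) ^ (-τ) ∧ ¬ Strict k y κ S x}.Finite := by
  classical
  constructor
  · intro q a hq ha κ hκ
    obtain ⟨E, σ, hσ0, hσ2, hE1, hE2⟩ := core hq ha hκ
    refine ⟨σ, hσ0, hσ2, fun τ hτ => ?_⟩
    obtain ⟨Z, hZ1, hZ2, hZ3⟩ := Pool.Agent.Q229.RAQ.near1 E hσ0 hE1 τ hτ
    have hT : ∀ t : ℝ, ∃ T₀ : ℝ, t ∉ Z → ∀ T : ℝ, T₀ ≤ T → ∀ x : ℚ, (x.den : ℝ) ≤ T → |t - x| ≤ T ^ (-τ) → x ∉ E := by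
      intro t
      by_cases ht : t ∈ Z
      · exact ⟨0, fun h => absurd ht h⟩
      · obtain ⟨T₀, h⟩ := eventually_atTop.1 (hZ3 t ht).2
        exact ⟨T₀, fun _ => h⟩
    choose T₀ hT₀ using hT
    refine ⟨Z, T₀, hZ1, hZ2, ?_⟩
    intro k _ _ A _ _ _ _ _ _ _ u y hy0 hyr
    obtain ⟨⟨c, hc⟩, hS⟩ := hE2 k A u y hy0 hyr
    refine ⟨⟨c, fun t ht T hT x hx hxt S hSp => hc x (hT₀ t ht T hT x hx hxt) S hSp⟩, fun t ht S hSp => ?_⟩
    obtain ⟨R, hR, hR2⟩ := hS S hSp
    filter_upwards [avoid hR (hZ3 t ht).1 hτ, eventually_ge_atTop (T₀ t)] with T h1 h2 x hx hxt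
    exact hR2 x (hT₀ t ht T h2 x hx hxt) (h1 x hxt)
  · -- one set of measure zero
    have hkey : ∀ (q : ℕ) (a : Fin q → ℚ) (n : ℕ), ∀ᵐ t : ℝ, 3 ≤ q → Function.Injective a →
        ∃ τ : ℝ, τ < 2 ∧ ∀ (k : Type) [Field k] [NumberField k] (A : Type) [CommRing A] [IsDedekindDomain A]
          [Algebra k A] [Algebra k[X] A] [IsScalarTower k k[X] A] [Module.Finite k[X] A]
          [FaithfulSMul k[X] A] (u : Fin q → ℕ) (y : ∀ j, Fin (u j + 1) → A),
          (∀ j, y j 0 = coord k A - algebraMap k A (algebraMap ℚ k (a j))) →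
          (∀ j i, y j i ∈ (Ideal.span {coord k A - algebraMap k A (algebraMap ℚ k (a j))}).radical) →
          ∀ S : Finset ℕ, (∀ p ∈ S, p.Prime) →
            {x : ℚ | |t - x| ≤ (x.den : ℝ) ^ (-τ) ∧ ¬ Strict k y (1 / ((n : ℝ) + 1)) S x}.Finite := by
      intro q a n
      by_cases hqa : 3 ≤ q ∧ Function.Injective a
      · obtain ⟨E, σ, hσ0, hσ2, hE1, hE2⟩ := core hqa.1 hqa.2 (κ := 1 / ((n : ℝ) + 1)) (by positivity)
        have hτ : 0 < (σ + 2) / 2 := by linarith
        obtain ⟨Z, hZ1, hZ2, hZ3⟩ := Pool.Agent.Q229.RAQ.near1 E hσ0 hE1 ((σ + 2) / 2) hτ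
        have hZ0 : volume Z = 0 := hZ2 (by linarith)
        filter_upwards [compl_mem_ae_iff.2 hZ0] with t ht _ _
        refine ⟨(σ + 2) / 2, by linarith, ?_⟩
        intro k _ _ A _ _ _ _ _ _ _ u y hy0 hyr S hSp
        obtain ⟨-, hS⟩ := hE2 k A u y hy0 hyr
        obtain ⟨R, hR, hR2⟩ := hS S hSp
        refine ((Pool.Agent.Q229.RAQ.finite_den hτ (hZ3 t ht).2).union hR).subset ?_
        rintro x ⟨h1, h2⟩
        by_cases hxR : x ∈ R
        · exact Or.inr hxR
        · refine Or.inl ⟨?_, h1⟩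
          by_contra hxE
          exact h2 (hR2 x hxE hxR)
      · exact Filter.Eventually.of_forall fun t h1 h2 => absurd ⟨h1, h2⟩ hqa
    have hall : ∀ᵐ t : ℝ, ∀ (q : ℕ) (a : Fin q → ℚ) (n : ℕ), 3 ≤ q → Function.Injective a →
        ∃ τ : ℝ, τ < 2 ∧ ∀ (k : Type) [Field k] [NumberField k] (A : Type) [CommRing A] [IsDedekindDomain A]
          [Algebra k A] [Algebra k[X] A] [IsScalarTower k k[X] A] [Module.Finite k[X] A]
          [FaithfulSMul k[X] A] (u : Fin q → ℕ) (y : ∀ j, Fin (u j + 1) → A),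
          (∀ j, y j 0 = coord k A - algebraMap k A (algebraMap ℚ k (a j))) →
          (∀ j i, y j i ∈ (Ideal.span {coord k A - algebraMap k A (algebraMap ℚ k (a j))}).radical) →
          ∀ S : Finset ℕ, (∀ p ∈ S, p.Prime) →
            {x : ℚ | |t - x| ≤ (x.den : ℝ) ^ (-τ) ∧ ¬ Strict k y (1 / ((n : ℝ) + 1)) S x}.Finite := by
      rw [ae_all_iff]
      intro q
      rw [ae_all_iff]
      intro a
      rw [ae_all_iff]
      exact hkey q a
    filter_upwards [hall] with t ht q a hq ha κ hκ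
    obtain ⟨n, hn⟩ := exists_nat_one_div_lt hκ
    obtain ⟨τ, hτ, h⟩ := ht q a n hq ha
    refine ⟨τ, hτ, ?_⟩
    intro k _ _ A _ _ _ _ _ _ _ u y hy0 hyr S hSp
    refine (h k A u y hy0 hyr S hSp).subset ?_
    rintro x ⟨h1, h2⟩
    refine ⟨h1, fun h3 => h2 ?_⟩
    intro L _ _ _ φ hφ
    have h4 := h3 L φ hφ
    have h5 := mul_le_mul_of_nonneg_right hn.le (height_nonneg x)
    linarith

end Pool.Agent.Results.MP_e44225_nt.RationalsNearRealPoints
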